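import Pool.Agent.R254.Reexp.Main

/-! The sine-to-cosine re-expansion operator on `L²(0, π)` is completely nonunitary. -/

set_option autoImplicit false

namespace Pool.Agent.Results.MP_f617a8_an.CompletelyNonunitary

open Pool.Agent.R254.Reexp MeasureTheory

/-- There is exactly one bounded operator `P` on `L²(0, π)` with `P f = ∑ ⟨f, s_n⟩ c_n` for all `f`.
It maps `s_n` to `c_n`, is an isometry, is completely nonunitary, `⋂ P^n H = 0`, and the orthogonal
system `P^n 1` is complete in `L²(0, π)`. -/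
theorem result :
    (∃! P : H →L[ℂ] H, IsReexpansion P) ∧
    ∀ P : H →L[ℂ] H, IsReexpansion P →
      (∀ n : ℕ, 1 ≤ n → P (sn n) = cn n) ∧ IsNormPreserving P ∧ IsCompletelyNonunitary P ∧
      HasTrivialTail P ∧ OrbitOrthogonal P one ∧ OrbitComplete P one := by
  have h0 : IsReexpansion P₀.toContinuousLinearMap := fun f => P₀_hasSum f
  have huniq : ∀ P : H →L[ℂ] H, IsReexpansion P → P = P₀.toContinuousLinearMap := by
    intro P hP
    ext1 f
    exact (hP f).unique (h0 f)
  refine ⟨⟨_, h0, huniq⟩, ?_⟩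
  intro P hP
  have hP0 := huniq P hP
  have hb : ∀ f : H, (∀ n : ℕ, inner ℂ (sn (n + 1)) f = 0) → f = 0 := sn_total
  have hc : ∀ f : H, (∀ n : ℕ, inner ℂ (cn (n + 1)) f = 0) → inner ℂ one f = 0 → f = 0 := cn_total
  have hiso : ∀ f : H, ‖P f‖ = ‖f‖ := by
    intro f; rw [hP0]; exact P₀.norm_map f
  have hPb : ∀ n : ℕ, P (sn (n + 1)) = cn (n + 1) := by
    intro n; rw [hP0]; exact P₀_sn n
  refine ⟨?_, hiso, ?_, ?_, ?_, ?_⟩
  · intro n hn
    obtain ⟨m, rfl⟩ := Nat.exists_eq_add_of_le' hn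
    exact hPb m
  · exact isCompletelyNonunitary hb cn_one hiso hPb W W_prop W_total
  · intro f hf
    exact eq_zero_of_ranges hb cn_one hiso hPb W W_prop W_total hf
  · intro m n hmn
    exact orbit_orthogonal hb cn_one hiso hPb hmn
  · exact dense_orbit hb hc cn_one hiso hPb W W_prop W_total

end Pool.Agent.Results.MP_f617a8_an.CompletelyNonunitary
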